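import Mathlib

namespace Pool.Agent.Results.MP_7fb2f0_pr.NotMono
open SimpleGraph

/-- edge sets of the connected spanning subgraphs of `G` with excess `k` -/
def conn {n : ℕ} (G : SimpleGraph (Fin n)) (k : ℤ) : Set (Finset (Sym2 (Fin n))) :=
  {F | (F : Set (Sym2 (Fin n))) ⊆ G.edgeSet ∧ (fromEdgeSet (F : Set (Sym2 (Fin n)))).Connected ∧
    (F.card : ℤ) = n + k}

/-- `p_e(k)` -/
noncomputable def prob {n : ℕ} (G : SimpleGraph (Fin n)) (e : Sym2 (Fin n)) (k : ℤ) : ℚ :=
  ({F ∈ conn G k | e ∈ F}.ncard : ℚ) / (conn G k).ncard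

abbrev P := Fin 11 × Fin 11

def one (R : ℕ) (p : P) : ℕ :=
  if R.testBit p.1 || R.testBit p.2 then R ||| (2 ^ p.1.val ||| 2 ^ p.2.val) else R

def sweep (l : List P) (R : ℕ) : ℕ := l.foldl one R

def iter (l : List P) : ℕ → ℕ → ℕ
  | 0, R => R
  | k + 1, R => if sweep l R = R then R else iter l k (sweep l R)

def chk (l : List P) : Bool := iter l 10 1 == 2047

lemma iter_eq (l : List P) (k R : ℕ) : iter l k R = (sweep l)^[k] R := by
  induction k generalizing R with
  | zero => rfl
  | succ k ih =>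
    rw [iter]
    split_ifs with h
    · exact (Function.iterate_fixed h _).symm
    · rw [ih]; rfl

lemma one_mono {R v : ℕ} (p : P) (h : R.testBit v = true) : (one R p).testBit v = true := by
  simp only [one]
  split_ifs <;> simp [h]

lemma sweep_mono (l : List P) {R v : ℕ} (h : R.testBit v = true) :
    (sweep l R).testBit v = true := by
  induction l generalizing R with
  | nil => exact h
  | cons p l ih => exact ih (one_mono p h)

lemma sweep_adj (l : List P) {R : ℕ} {p : P} (hp : p ∈ l)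
    (h : R.testBit p.1 = true ∨ R.testBit p.2 = true) :
    (sweep l R).testBit p.1 = true ∧ (sweep l R).testBit p.2 = true := by
  induction l generalizing R with
  | nil => simp at hp
  | cons q l ih =>
    rcases List.mem_cons.1 hp with rfl | hp
    · have h1 : one R p = R ||| (2 ^ p.1.val ||| 2 ^ p.2.val) := by
        rw [one, if_pos (by simpa using h)]
      exact ⟨sweep_mono l (R := one R p) (by simp [h1]), sweep_mono l (R := one R p) (by simp [h1])⟩
    · exact ih hp (h.imp (one_mono q) (one_mono q))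

lemma sweep_sound (H : SimpleGraph (Fin 11)) (l : List P) (hl : ∀ p ∈ l, H.Adj p.1 p.2) {R : ℕ}
    (h : ∀ v, R.testBit v = true → ∃ u : Fin 11, u.val = v ∧ H.Reachable 0 u) :
    ∀ v, (sweep l R).testBit v = true → ∃ u : Fin 11, u.val = v ∧ H.Reachable 0 u := by
  induction l generalizing R with
  | nil => exact h
  | cons q l ih =>
    refine ih (fun p hp => hl p (List.mem_cons_of_mem _ hp)) (R := one R q) fun v hv => ?_
    have hq := hl q List.mem_cons_self
    simp only [one] at hv
    split_ifs at hv with hc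
    · have h2 : H.Reachable 0 q.1 ∧ H.Reachable 0 q.2 := by
        rcases Bool.or_eq_true_iff.1 hc with h1 | h1 <;> obtain ⟨u, hu, hr⟩ := h _ h1 <;>
          obtain rfl := Fin.ext hu
        · exact ⟨hr, hr.trans hq.reachable⟩
        · exact ⟨hr.trans hq.symm.reachable, hr⟩
      simp only [Nat.testBit_or, Bool.or_eq_true, Nat.testBit_two_pow, decide_eq_true_eq] at hv
      rcases hv with hv | hv | hv
      exacts [h v hv, ⟨_, hv, h2.1⟩, ⟨_, hv, h2.2⟩]
    · exact h v hv

lemma iter_sound (H : SimpleGraph (Fin 11)) (l : List P) (hl : ∀ p ∈ l, H.Adj p.1 p.2) (k : ℕ) :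
    ∀ v, ((sweep l)^[k] 1).testBit v = true → ∃ u : Fin 11, u.val = v ∧ H.Reachable 0 u := by
  induction k with
  | zero =>
    intro v hv
    exact ⟨0, (Nat.testBit_one_eq_true_iff_self_eq_zero.1 hv).symm, .refl _⟩
  | succ k ih =>
    rw [Function.iterate_succ_apply']
    exact sweep_sound H l hl ih

lemma iter_walk (H : SimpleGraph (Fin 11)) (l : List P)
    (hl : ∀ a b, H.Adj a b → (a, b) ∈ l ∨ (b, a) ∈ l) {u v : Fin 11} (p : H.Walk u v) (k R : ℕ)
    (hk : p.length ≤ k) (h : R.testBit u = true) : ((sweep l)^[k] R).testBit v = true := by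
  induction p generalizing k R with
  | nil =>
    clear hk
    induction k with
    | zero => exact h
    | succ k ih => rw [Function.iterate_succ_apply']; exact sweep_mono l ih
  | cons hab p ih =>
    obtain ⟨k, rfl⟩ : ∃ j, k = j + 1 := ⟨k - 1, by simp at hk; omega⟩
    refine ih k (sweep l R) (by simpa using hk) ?_
    rcases hl _ _ hab with h1 | h1
    · exact (sweep_adj l h1 (.inl h)).2
    · exact (sweep_adj l h1 (.inr h)).1

lemma conn_iff (H : SimpleGraph (Fin 11)) (l : List P) (h1 : ∀ p ∈ l, H.Adj p.1 p.2)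
    (h2 : ∀ a b, H.Adj a b → (a, b) ∈ l ∨ (b, a) ∈ l) : H.Connected ↔ chk l = true := by
  rw [chk, iter_eq, beq_iff_eq]
  constructor
  · intro h
    refine Nat.eq_of_testBit_eq fun v => ?_
    rw [show 2047 = 2 ^ 11 - 1 by norm_num, Nat.testBit_two_pow_sub_one]
    by_cases hv : v < 11
    · obtain ⟨p⟩ := h.preconnected 0 ⟨v, hv⟩
      have := p.toPath.2.length_lt
      simpa [hv] using iter_walk H l h2 p.toPath.1 10 1 (by simp at this; omega) (by decide)
    · simp only [hv, decide_false]
      by_contra hc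
      obtain ⟨u, hu, -⟩ := iter_sound H l h1 10 v (by simpa using hc)
      omega
  · intro h
    rw [connected_iff_exists_forall_reachable]
    refine ⟨0, fun w => ?_⟩
    obtain ⟨u, hu, hr⟩ := iter_sound H l h1 10 w (by rw [h]; revert w; decide)
    rwa [← Fin.ext hu]

def ed : Fin 16 → P := ![(0, 5), (0, 6), (6, 1), (0, 1), (1, 7), (7, 2), (1, 2), (2, 8), (8, 3),
  (2, 3), (3, 9), (9, 4), (3, 4), (4, 10), (10, 5), (4, 5)]

def em : Fin 16 ↪ Sym2 (Fin 11) := ⟨fun i => s((ed i).1, (ed i).2), by decide +kernel⟩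

def G0 : SimpleGraph (Fin 11) := fromEdgeSet (Set.range em)

lemma nd : ∀ i, (ed i).1 ≠ (ed i).2 := by decide

lemma edge_G0 : G0.edgeSet = Set.range em := by
  rw [G0, edgeSet_fromEdgeSet, sdiff_eq_left, Set.disjoint_left]
  rintro _ ⟨i, rfl⟩ h
  exact nd i (by simpa [em] using h)

def good (T : Finset (Fin 16)) : Bool := chk (((List.finRange 16).filter (· ∈ T)).map ed)

lemma good_iff (T : Finset (Fin 16)) :
    (fromEdgeSet ((T.map em : Finset _) : Set (Sym2 (Fin 11)))).Connected ↔ good T = true := by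
  refine conn_iff _ _ ?_ ?_
  · intro p hp
    simp only [List.mem_map, List.mem_filter, decide_eq_true_eq] at hp
    obtain ⟨i, ⟨-, hi⟩, rfl⟩ := hp
    exact ⟨Finset.mem_coe.2 (Finset.mem_map.2 ⟨i, hi, rfl⟩), nd i⟩
  · rintro a b ⟨h, -⟩
    obtain ⟨i, hi, he⟩ := Finset.mem_map.1 (Finset.mem_coe.1 h)
    have hm : ed i ∈ ((List.finRange 16).filter (· ∈ T)).map ed :=
      List.mem_map.2 ⟨i, by simpa using hi, rfl⟩
    rcases Sym2.eq_iff.1 he with ⟨rfl, rfl⟩ | ⟨rfl, rfl⟩
    exacts [.inl hm, .inr hm]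

def L (j : ℕ) : Finset (Finset (Fin 16)) :=
  (Finset.univ.powersetCard j).filter fun T => good T = true

lemma conn_eq (j : ℕ) (k : ℤ) (h : (j : ℤ) = 11 + k) :
    conn G0 k = (fun T => T.map em) '' (L j : Set (Finset (Fin 16))) := by
  ext F
  simp only [conn, edge_G0, Set.mem_ofPred_eq, Set.mem_image, Finset.mem_coe, L,
    Finset.mem_filter, Finset.mem_powersetCard, Finset.subset_univ, true_and]
  constructor
  · rintro ⟨h1, h2, h3⟩
    have hF : (F.preimage em em.injective.injOn).map em = F := by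
      ext e
      simp only [Finset.mem_map, Finset.mem_preimage]
      exact ⟨fun ⟨i, hi, he⟩ => he ▸ hi, fun he => by
        obtain ⟨i, rfl⟩ := h1 he
        exact ⟨i, he, rfl⟩⟩
    refine ⟨_, ⟨?_, ?_⟩, hF⟩
    · rw [← hF, Finset.card_map] at h3
      push_cast at h3
      omega
    · rw [← good_iff, hF]; exact h2
  · rintro ⟨T, ⟨h1, h2⟩, rfl⟩
    refine ⟨fun e he => ?_, (good_iff T).2 h2, by rw [Finset.card_map, h1, h]; rfl⟩
    obtain ⟨i, -, rfl⟩ := Finset.mem_map.1 (Finset.mem_coe.1 he)
    exact ⟨i, rfl⟩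

lemma prob_eq (j : ℕ) (k : ℤ) (h : (j : ℤ) = 11 + k) :
    prob G0 (em 0) k = ((L j).filter fun T => 0 ∈ T).card / (L j).card := by
  have h1 : {F ∈ conn G0 k | em 0 ∈ F} =
      (fun T => T.map em) '' (((L j).filter fun T => 0 ∈ T : Finset _) : Set (Finset (Fin 16))) := by
    rw [conn_eq j k h]
    ext F
    simp only [Set.mem_image, Finset.mem_coe, Set.mem_ofPred_eq, Finset.mem_filter]
    constructor
    · rintro ⟨⟨T, hT, rfl⟩, he⟩
      exact ⟨T, ⟨hT, by simpa using he⟩, rfl⟩
    · rintro ⟨T, ⟨hT, he⟩, rfl⟩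
      exact ⟨⟨T, hT, rfl⟩, by simpa using he⟩
  rw [prob, h1, conn_eq j k h, Set.ncard_image_of_injective _ (Finset.map_injective em),
    Set.ncard_image_of_injective _ (Finset.map_injective em), Set.ncard_coe_finset,
    Set.ncard_coe_finset]

def mask (p : P) : ℕ := 2 ^ p.1.val ||| 2 ^ p.2.val

def sweepM : List ℕ → ℕ → ℕ
  | [], R => R
  | m :: l, R => sweepM l (bif Nat.beq (R &&& m) 0 then R else R ||| m)

def iterM (l : List ℕ) : ℕ → ℕ → ℕ
  | 0, R => R
  | k + 1, R => bif Nat.beq (sweepM l R) R then R else iterM l k (sweepM l R)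

lemma beq_ne {a b : ℕ} (h : a ≠ b) : Nat.beq a b = false := by
  rw [← Bool.not_eq_true, Nat.beq_eq]; exact h

def cnt (q : List ℕ → Bool) : List ℕ → ℕ → List ℕ → ℕ
  | _, 0, acc => bif q acc then 1 else 0
  | [], _ + 1, _ => 0
  | a :: l, j + 1, acc => cnt q l (j + 1) acc + cnt q l j (a :: acc)

lemma cnt_eq (q : List ℕ → Bool) (f : Fin 16 → ℕ) (l : List (Fin 16)) (j : ℕ)
    (acc : List (Fin 16)) : cnt q (l.map f) j (acc.map f) =
      (l.sublistsLen j).countP fun t => q ((t.reverse ++ acc).map f) := by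
  induction l generalizing j acc with
  | nil => cases j <;> simp [cnt, List.countP_cons]
  | cons a l ih =>
    cases j with
    | zero => simp [cnt, List.countP_cons]
    | succ j =>
      rw [List.map_cons, cnt, ← List.map_cons, ih, ih, List.sublistsLen_succ_cons,
        List.countP_append, List.countP_map]
      congr 2
      funext t
      simp

lemma sweepM_eq (l : List P) (R : ℕ) : sweepM (l.map mask) R = sweep l R := by
  induction l generalizing R with
  | nil => rfl
  | cons p l ih =>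
    rw [List.map_cons, sweepM, ih]
    change _ = sweep l (one R p)
    congr 1
    simp only [one, mask]
    by_cases h : (R.testBit p.1 || R.testBit p.2) = true
    · have : R &&& (2 ^ p.1.val ||| 2 ^ p.2.val) ≠ 0 := by
        intro h0
        have h1 := congrArg (Nat.testBit · p.1) h0
        have h2 := congrArg (Nat.testBit · p.2) h0
        simp only [Nat.testBit_and, Nat.testBit_or, Nat.testBit_two_pow_self, Nat.zero_testBit,
          Bool.true_or, Bool.or_true, Bool.and_true] at h1 h2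
        simp [h1, h2] at h
      rw [if_pos h, beq_ne this]
      rfl
    · have : R &&& (2 ^ p.1.val ||| 2 ^ p.2.val) = 0 := by
        refine Nat.eq_of_testBit_eq fun i => ?_
        simp only [Nat.testBit_and, Nat.testBit_or, Nat.testBit_two_pow, Nat.zero_testBit]
        by_cases h1 : p.1.val = i <;> by_cases h2 : p.2.val = i <;> simp_all
      rw [if_neg h, this]
      rfl

lemma iterM_eq (l : List P) (k R : ℕ) : iterM (l.map mask) k R = iter l k R := by
  induction k generalizing R with
  | zero => rfl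
  | succ k ih =>
    rw [iterM, iter, sweepM_eq, ih]
    split_ifs with h
    · rw [h, Nat.beq_refl]; rfl
    · rw [beq_ne h]; rfl

def ML : List ℕ := [33, 65, 66, 3, 130, 132, 6, 260, 264, 12, 520, 528, 24, 1040, 1056, 48]

lemma ML_eq : (List.finRange 16).map (mask ∘ ed) = ML := by decide +kernel

lemma good_coe (t : List (Fin 16)) (T : Finset (Fin 16)) (h : T.val = ↑t) :
    good T = Nat.beq (iterM (t.map (mask ∘ ed)) 10 1) 2047 := by
  have hm : ∀ i, i ∈ T ↔ i ∈ t := fun i => by rw [← Finset.mem_val, h, Multiset.mem_coe]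
  rw [← List.map_map, iterM_eq, Bool.eq_iff_iff, ← good_iff, Nat.beq_eq, ← beq_iff_eq]
  refine conn_iff _ _ ?_ ?_
  · intro p hp
    obtain ⟨i, hi, rfl⟩ := List.mem_map.1 hp
    exact ⟨Finset.mem_coe.2 (Finset.mem_map.2 ⟨i, (hm i).2 hi, rfl⟩), nd i⟩
  · rintro a b ⟨h, -⟩
    obtain ⟨i, hi, he⟩ := Finset.mem_map.1 (Finset.mem_coe.1 h)
    have hm : ed i ∈ t.map ed := List.mem_map.2 ⟨i, (hm i).1 hi, rfl⟩
    rcases Sym2.eq_iff.1 he with ⟨rfl, rfl⟩ | ⟨rfl, rfl⟩
    exacts [.inl hm, .inr hm]

lemma count_eq (j : ℕ) (Q : Finset (Fin 16) → Prop) [DecidablePred Q] (q : List ℕ → Bool)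
    (h : ∀ (t : List (Fin 16)) (T : Finset (Fin 16)), T.val = ↑t →
      (Q T ↔ q (t.map (mask ∘ ed)) = true)) :
    ((Finset.univ.powersetCard j).filter Q).card = cnt q ML j [] := by
  classical
  let Q' : Multiset (Fin 16) → Prop := fun m => Q m.toFinset
  have h1 : ((Finset.univ.powersetCard j).filter Q).card =
      ((Finset.univ.powersetCard j).val.map Finset.val).countP Q' := by
    rw [Multiset.countP_map, Finset.card_def, Finset.filter_val]
    congr 1
    exact Multiset.filter_congr fun T _ => by simp [Q']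
  have h2 : (Finset.univ : Finset (Fin 16)).val = ↑(List.finRange 16) := rfl
  rw [h1, Finset.map_val_val_powersetCard, h2, Multiset.powersetCard_coe, Multiset.coe_countP,
    List.countP_map, ← ML_eq, ← List.map_nil (f := mask ∘ ed), cnt_eq]
  refine List.countP_congr fun t ht => ?_
  have hn : t.Nodup := (List.nodup_finRange 16).sublist (List.mem_sublistsLen.1 ht).1
  have := h (t.reverse ++ []) ⟨↑t, hn⟩ (by simp)
  simp only [Function.comp, decide_eq_true_eq, Q']
  have e : Multiset.toFinset (Multiset.ofList t) = ⟨↑t, hn⟩ := by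
    ext i
    simp [Finset.mem_mk]
  rw [← this, e]

def q1 (l : List ℕ) : Bool := Nat.beq (iterM l 10 1) 2047
def q2 (l : List ℕ) : Bool := l.any (Nat.beq 33) && q1 l

lemma card1 (j : ℕ) : (L j).card = cnt q1 ML j [] :=
  count_eq j _ q1 fun t T h => by rw [good_coe t T h]; rfl

lemma card2 (j : ℕ) : ((L j).filter fun T => 0 ∈ T).card = cnt q2 ML j [] := by
  rw [L, Finset.filter_filter]
  refine count_eq j _ q2 fun t T h => ?_
  have hm : 0 ∈ T ↔ 0 ∈ t := by rw [← Finset.mem_val, h, Multiset.mem_coe]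
  have h0 : ∀ i : Fin 16, Nat.beq 33 (mask (ed i)) = true ↔ i = 0 := by decide +kernel
  rw [good_coe t T h, hm, q2, Bool.and_eq_true, and_comm]
  simp [q1, h0]

lemma c10 : ((L 10).filter fun T => 0 ∈ T).card = 810 ∧ (L 10).card = 1053 := by
  rw [card1, card2]; decide +kernel
lemma c11 : ((L 11).filter fun T => 0 ∈ T).card = 1323 ∧ (L 11).card = 1728 := by
  rw [card1, card2]; decide +kernel

theorem result : ¬ ∀ (n : ℕ) (G : SimpleGraph (Fin n)), G.Connected → ∀ e ∈ G.edgeSet, ∀ k : ℤ,
    -1 ≤ k → k < (G.edgeSet.ncard : ℤ) - n → prob G e k ≤ prob G e (k + 1) := by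
  intro h
  have hc : G0.Connected := by
    have := (good_iff Finset.univ).2 (by decide +kernel)
    simpa [G0] using this
  have h1 := h 11 G0 hc (em 0) (by rw [edge_G0]; exact ⟨0, rfl⟩) (-1) le_rfl (by
    rw [edge_G0, ← Set.image_univ, Set.ncard_image_of_injective _ em.injective, Set.ncard_univ]
    simp)
  rw [prob_eq 10 _ (by norm_num), prob_eq 11 _ (by norm_num), c10.1, c10.2, c11.1, c11.2] at h1
  norm_num at h1

end Pool.Agent.Results.MP_7fb2f0_pr.NotMono
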